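import Pool.Agent.H84.SM.Targets

/-!
# MP_70ba79_ag, board `smc_modules`, module SCC: scaling of a curve
-/

set_option autoImplicit false

namespace Pool.Agent.H59.SM

open MvPolynomial SC Pool.Agent.H27.LV Pool.Agent.H84.SM

theorem scc_dt {K : Type} [Field K] (a y z : Fin 3 → K) (c m p q r : K) :
    dt (fun i => c * a i) (fun i => c * m * y i + p * a i)
      (fun i => c * m ^ 2 * z i + q * y i + r * a i) = c ^ 3 * m ^ 3 * dt a y z := by
  simp only [dt, dp, cr, Fin.sum_univ_three, Fin.isValue, Fin.reduceAdd]
  ring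

theorem pf_SCC (hSCL : T_SCL) : T_SCC := by
  intro k K _ _ _ _ D x c μ e n N hI hB
  have h := hSCL k e n N hI hB K x (fun i => D (x i))
    (dt x (fun i => D (x i)) (fun i => D (D (x i)))) c μ (μ * D c)
  unfold evc
  rw [← h]
  have e1 : (fun i => (μ • D) (c * x i)) = fun i => c * μ * D (x i) + μ * D c * x i := by
    funext i
    simp only [Derivation.smul_apply, Derivation.leibniz, smul_eq_mul]
    ring
  have e2 : (fun i => (μ • D) ((μ • D) (c * x i))) =
      fun i => c * μ ^ 2 * D (D (x i)) + (μ * (D (c * μ) + μ * D c)) * D (x i) +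
        μ * D (μ * D c) * x i := by
    funext i
    have : (μ • D) (c * x i) = c * μ * D (x i) + μ * D c * x i := congrFun e1 i
    rw [this]
    simp only [Derivation.smul_apply, Derivation.leibniz, smul_eq_mul, map_add]
    ring
  rw [e1, e2, scc_dt]

end Pool.Agent.H59.SM
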