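import Pool.Agent.H84.SM.Targets

/-!
# MP_70ba79_ag, board `smc_modules`, module CBD: dimension of the space of restrictions
-/

set_option autoImplicit false

namespace Pool.Agent.H59.SM

open MvPolynomial SC Pool.Agent.H27.LV Pool.Agent.H84.SM

theorem cbd_fe_smul {k L : Type} [Field k] [Field L] [Algebra k L]
    (G : MvPolynomial (Fin 3) k) (l : Fin 3) (c τ m : Fin 3 → L) (a : k) (p : P2 k) :
    fe G l c τ m (a • p) = a • fe G l c τ m p := by
  have h1 : a • p = Polynomial.C (MvPolynomial.C a : B2 k) * p := by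
    rw [Polynomial.C_mul', ← MvPolynomial.algebraMap_eq, algebraMap_smul]
  rw [h1, map_mul, Algebra.smul_def]
  congr 1
  simp [fe, evl]

theorem cbd_cne {k L : Type} [Field k] [Field L] [Algebra k L]
    (G : MvPolynomial (Fin 3) k) (d : ℕ) (hd : 2 ≤ d) (hG : G.IsHomogeneous d) (hG0 : G ≠ 0)
    (c : Fin 3 → L) (hc : GenPt G c) (l : Fin 3) : c l ≠ 0 := by
  intro h0
  have h1 : G ∣ (X l : MvPolynomial (Fin 3) k) := (hc (X l)).1 (by rw [aeval_X]; exact h0)
  obtain ⟨q, hq⟩ := h1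
  have hX : (X l : MvPolynomial (Fin 3) k) ≠ 0 := MvPolynomial.X_ne_zero l
  have hq0 : q ≠ 0 := by
    rintro rfl
    rw [mul_zero] at hq
    exact hX hq
  have h2 := congrArg MvPolynomial.totalDegree hq
  rw [MvPolynomial.totalDegree_X, MvPolynomial.totalDegree_mul_of_isDomain hG0 hq0,
    hG.totalDegree hG0] at h2
  omega

theorem cbd_gne {k L : Type} [Field k] [Field L] [Algebra k L]
    (G : MvPolynomial (Fin 3) k) (d : ℕ) (hd : 2 ≤ d) (hS : Smooth G d) (hG0 : G ≠ 0)
    (c : Fin 3 → L) (hc : GenPt G c) : ∃ l : Fin 3, gr G c l ≠ 0 := by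
  by_contra hcon
  push Not at hcon
  have h1 : ∀ l, pderiv l G = 0 := by
    intro l
    by_contra hne
    have h2 : G ∣ pderiv l G := (hc _).1 (hcon l)
    obtain ⟨q, hq⟩ := h2
    have hq0 : q ≠ 0 := by
      rintro rfl
      rw [mul_zero] at hq
      exact hne hq
    have h3 := congrArg MvPolynomial.totalDegree hq
    rw [MvPolynomial.totalDegree_mul_of_isDomain hG0 hq0, hS.1.totalDegree hG0,
      (hS.1.pderiv (i := l)).totalDegree hne] at h3
    omega
  have h4 := hS.2 (fun _ => 1) (fun i => by rw [h1 i, map_zero])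
  exact one_ne_zero (congrFun h4 0)

section Main

variable {k L : Type} [Field k] [IsAlgClosed k] [CharZero k] [Field L] [Algebra k L]

theorem cbd_mem (hFCH : T_FCH) (hFDN : T_FDN) (hFRX : T_FRX) (hSAS : T_SAS)
    (G : MvPolynomial (Fin 3) k) (d : ℕ) (hd : 2 ≤ d) (hS : Smooth G d) (hirr : Irreducible G)
    (c : Fin 3 → L) (hc : GenPt G c) (t m : Fin 3 → L) (hfr : Frame G c t m) (l1 : Fin 3)
    (n M : ℕ) (τ : ℤ) (N : R2 k) (hsec : IsSec G d n τ M N) (N1 : P2 k)
    (h1 : gp G ^ M * N1 = Psi G d l1 N) (j b : ℕ)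
    (hj : ∀ j', j < j' → (fe G l1 c t m N1).coeff j' = 0)
    (hb : ∀ b', b' < b → ((fe G l1 c t m N1).coeff j).coeff b' = 0) :
    ((fe G l1 c t m N1).coeff j).coeff b ∈ SS (k := k) c (τ + ((b : ℤ) + j) * (d - 3)) := by
  classical
  have hG0 := hirr.ne_zero
  have haG : aeval c G = 0 := (hc G).2 dvd_rfl
  obtain ⟨e, he, hB⟩ := hsec.2.1
  have key : ∀ l l' : Fin 3, ∃ n0 : ℕ, ∀ n1 : ℕ, n0 ≤ n1 →
      c l ^ n1 * gr G c l' ^ n1 * ((fe G l1 c t m N1).coeff j).coeff b ∈
        SS (k := k) c (τ + ((b : ℤ) + j) * (d - 3) + n1 + n1 * ((d : ℤ) - 1)) := by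
    intro l l'
    by_cases hgl : gr G c l' = 0
    · refine ⟨1, fun n1 hn1 => ?_⟩
      rw [hgl, zero_pow (by omega), mul_zero, zero_mul]
      exact Submodule.zero_mem _
    · obtain ⟨N2, hN2⟩ := hsec.2.2 l'
      have hf2 := hFRX k L G d c hS.1 haG l l' (cbd_cne G d hd hS.1 hG0 c hc l) hgl
      obtain ⟨n0, hn0⟩ := hFDN k L G d c hd hS hirr hc n M τ N hsec l l' N2 hN2.symm j b
      have hch := hFCH k L G d c hd hS hirr hc t m _ _ hfr hf2 e n M N hB l1 l' N1 N2 h1 hN2.symm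
        j b hj hb
      refine ⟨n0, fun n1 hn1 => ?_⟩
      have := hn0 n1 hn1
      rwa [hch] at this
  choose n0 h0 using key
  exact hSAS k L G d c hd hS hirr hc _ _
    (Finset.univ.sup fun p : Fin 3 × Fin 3 => n0 p.1 p.2)
    (fun l l' => h0 l l' _ (Finset.le_sup (f := fun p : Fin 3 × Fin 3 => n0 p.1 p.2)
      (Finset.mem_univ (l, l'))))

/-- the coefficients as linear maps -/
noncomputable def cbd_co (G : MvPolynomial (Fin 3) k) (l1 : Fin 3) (c t m : Fin 3 → L)
    {V : Type} [AddCommMonoid V] [Module k V] (cl : V →ₗ[k] P2 k) (j b : ℕ) : V →ₗ[k] L where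
  toFun Q := ((fe G l1 c t m (cl Q)).coeff j).coeff b
  map_add' Q1 Q2 := by simp
  map_smul' a Q := by
    rw [map_smul, cbd_fe_smul, Polynomial.coeff_smul, Polynomial.coeff_smul]
    rfl

end Main

theorem cbd_sum (n : ℕ) (f : ℕ → ℕ → ℕ) :
    ∑ i : Fin ((n / 3 + 1) * (n + 1)),
      (if (i : ℕ) % (n + 1) + 3 * (n / 3 - (i : ℕ) / (n + 1)) ≤ n then
        f (n / 3 - (i : ℕ) / (n + 1)) ((i : ℕ) % (n + 1)) else 0) =
    ∑ j ∈ Finset.range (n / 3 + 1), ∑ b ∈ Finset.range (n - 3 * j + 1), f j b := by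
  rw [← Equiv.sum_comp finProdFinEquiv, Fintype.sum_prod_type]
  have h1 : ∀ (x : Fin (n / 3 + 1)) (y : Fin (n + 1)),
      ((finProdFinEquiv (x, y) : Fin ((n / 3 + 1) * (n + 1))) : ℕ) / (n + 1) = x ∧
      ((finProdFinEquiv (x, y) : Fin ((n / 3 + 1) * (n + 1))) : ℕ) % (n + 1) = y := by
    intro x y
    rw [finProdFinEquiv_apply_val]
    simp only
    constructor
    · rw [Nat.add_mul_div_left _ _ (by omega), Nat.div_eq_of_lt y.2, zero_add]
    · rw [Nat.add_mul_mod_self_left, Nat.mod_eq_of_lt y.2]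
  have h2 : ∀ x : Fin (n / 3 + 1), ∑ y : Fin (n + 1),
      (if ((finProdFinEquiv (x, y) : Fin ((n / 3 + 1) * (n + 1))) : ℕ) % (n + 1) +
          3 * (n / 3 - ((finProdFinEquiv (x, y) : Fin ((n / 3 + 1) * (n + 1))) : ℕ) / (n + 1)) ≤ n
        then f (n / 3 - ((finProdFinEquiv (x, y) : Fin ((n / 3 + 1) * (n + 1))) : ℕ) / (n + 1))
          (((finProdFinEquiv (x, y) : Fin ((n / 3 + 1) * (n + 1))) : ℕ) % (n + 1)) else 0) =
      (fun j : ℕ => ∑ b ∈ Finset.range (n - 3 * j + 1), f j b) (n / 3 + 1 - 1 - (x : ℕ)) := by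
    intro x
    have hx := x.2
    simp only [(h1 x _).1, (h1 x _).2]
    rw [Fin.sum_univ_eq_sum_range
      (fun y => if y + 3 * (n / 3 - (x : ℕ)) ≤ n then f (n / 3 - (x : ℕ)) y else 0) (n + 1),
      ← Finset.sum_filter, Nat.add_sub_cancel]
    apply Finset.sum_congr _ (fun _ _ => rfl)
    ext y
    simp only [Finset.mem_filter, Finset.mem_range]
    omega
  rw [Finset.sum_congr rfl (fun x _ => h2 x)]
  rw [Fin.sum_univ_eq_sum_range
    (fun x => (fun j : ℕ => ∑ b ∈ Finset.range (n - 3 * j + 1), f j b) (n / 3 + 1 - 1 - x))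
    (n / 3 + 1)]
  exact Finset.sum_range_reflect (fun j : ℕ => ∑ b ∈ Finset.range (n - 3 * j + 1), f j b)
    (n / 3 + 1)

theorem pf_CBD (hLED : T_LED) (hEUB : T_EUB) (hCLM : T_CLM) (hFCH : T_FCH) (hFDN : T_FDN)
    (hFWT : T_FWT) (hFIJ : T_FIJ) (hFRX : T_FRX) (hSAS : T_SAS) (hSDM : T_SDM) (hGPT : T_GPT)
    (hMUG : T_MUG) (hEME : T_EME) (_hORK : T_ORK) : T_CBD := by
  intro k _ _ _ G d hd hS hirr n τ
  classical
  obtain ⟨L, _, _, c, hc⟩ := hGPT k G hirr
  have hG := hS.1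
  have hG0 := hirr.ne_zero
  have haG : aeval c G = 0 := (hc G).2 dvd_rfl
  obtain ⟨l1, hl1⟩ := cbd_gne G d hd hS hG0 c hc
  have hfr := hFRX k L G d c hG haG 0 l1 (cbd_cne G d hd hG hG0 c hc 0) hl1
  generalize (fun i => cr (gr G c) (Pi.single 0 1) i / c 0) = t at hfr
  generalize (Pi.single l1 (gr G c l1)⁻¹ : Fin 3 → L) = m at hfr
  obtain ⟨cl, hcl⟩ := hCLM k G d hd hS hirr n τ l1
  -- representations
  have hrep : ∀ Q : E G d n τ, ∃ (M : ℕ) (N : R2 k), IsSec G d n τ M N ∧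
      (Q : Polynomial (F2 k)) = sec G M N ∧ gp G ^ M * cl Q = Psi G d l1 N := by
    intro Q
    obtain ⟨M, N, h1, h2⟩ := (hEME k G d (by omega) hG hG0 n τ Q).1 Q.2
    exact ⟨M, N, h1, h2, hcl Q M N h1 h2⟩
  have hwt : ∀ (Q : E G d n τ) (j b : ℕ), n < b + 3 * j →
      ((fe G l1 c t m (cl Q)).coeff j).coeff b = 0 := by
    intro Q j b hjb
    obtain ⟨M, N, h1, _, h3⟩ := hrep Q
    obtain ⟨e, _, hB⟩ := h1.2.1
    exact hFWT k L G d c t m hd hS hirr hc hfr e n M N hB l1 (cl Q) h3 j b hjb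
  let φ : Fin ((n / 3 + 1) * (n + 1)) → (E G d n τ →ₗ[k] L) := fun i =>
    cbd_co G l1 c t m cl (n / 3 - (i : ℕ) / (n + 1)) ((i : ℕ) % (n + 1))
  have hφ : ∀ i Q, φ i Q = ((fe G l1 c t m (cl Q)).coeff (n / 3 - (i : ℕ) / (n + 1))).coeff
      ((i : ℕ) % (n + 1)) := fun _ _ => rfl
  let F : Fin ((n / 3 + 1) * (n + 1)) → Submodule k L := fun i =>
    if (i : ℕ) % (n + 1) + 3 * (n / 3 - (i : ℕ) / (n + 1)) ≤ n then
      SS (k := k) c (τ + ((((i : ℕ) % (n + 1) : ℕ) : ℤ) +
        ((n / 3 - (i : ℕ) / (n + 1) : ℕ) : ℤ)) * (d - 3)) else ⊥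
  have hF : ∀ i, F i = if (i : ℕ) % (n + 1) + 3 * (n / 3 - (i : ℕ) / (n + 1)) ≤ n then
      SS (k := k) c (τ + ((((i : ℕ) % (n + 1) : ℕ) : ℤ) +
        ((n / 3 - (i : ℕ) / (n + 1) : ℕ) : ℤ)) * (d - 3)) else ⊥ := fun _ => rfl
  have hgF : gF G ≠ 0 := by
    unfold gF gA
    intro h0
    have h1 : (aeval xa G : A2 k) = 0 :=
      IsFractionRing.injective (A2 k) (F2 k) (by rw [h0, map_zero])
    have h2 : (aeval (xa (k := k)) : MvPolynomial (Fin 3) k →ₐ[k] A2 k) =
        rename Sum.inl := by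
      apply MvPolynomial.algHom_ext
      intro i
      simp [xa]
    rw [h2] at h1
    exact hG0 (rename_injective _ Sum.inl_injective (by rw [h1, map_zero]))
  -- multiplication by `gF`
  let μ : Polynomial (F2 k) →ₗ[k] Polynomial (F2 k) :=
    LinearMap.mulLeft k (Polynomial.C (gF G))
  let W : Submodule k (E G d n τ) :=
    (Submodule.map μ (E G d n (τ - d))).comap (E G d n τ).subtype
  have hfin1 : Module.Finite k (E G d n (τ - d)) := (hEUB k G d hd hS hirr n (τ - d)).1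
  have hfin0 : Module.Finite k (E G d n τ) := (hEUB k G d hd hS hirr n τ).1
  have hfin2 : Module.Finite k (Submodule.map μ (E G d n (τ - d))) := inferInstance
  have hWfin : Module.Finite k W :=
    FiniteDimensional.finiteDimensional_submodule (K := k) (V := E G d n τ) W
  have hWle : Module.finrank k W ≤ Module.finrank k (E G d n (τ - d)) := by
    have e1 : Module.finrank k W = Module.finrank k (W.map (E G d n τ).subtype) :=
      (LinearEquiv.finrank_eq (Submodule.equivMapOfInjective _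
        (Submodule.subtype_injective _) W))
    have e2 : W.map (E G d n τ).subtype ≤ Submodule.map μ (E G d n (τ - d)) :=
      Submodule.map_comap_le _ _
    rw [e1]
    exact (Submodule.finrank_mono e2).trans (Submodule.finrank_map_le _ _)
  have hSfin : ∀ r, Module.Finite k (SS (k := k) c r) := fun r => (hSDM k L G d c hG hG0 hc r).1
  have hFfin : ∀ i, Module.Finite k (F i) := by
    intro i
    by_cases h : (i : ℕ) % (n + 1) + 3 * (n / 3 - (i : ℕ) / (n + 1)) ≤ n
    · rw [hF i, if_pos h]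
      exact hSfin _
    · rw [hF i, if_neg h]
      infer_instance
  have hker : ∀ v, (∀ i, φ i v = 0) → v ∈ W := by
    intro Q hQ
    have hfe : fe G l1 c t m (cl Q) = 0 := by
      ext j b
      rw [Polynomial.coeff_zero, Polynomial.coeff_zero]
      by_cases hjb : n < b + 3 * j
      · exact hwt Q j b hjb
      · have hb : b < n + 1 := by omega
        have hj : j ≤ n / 3 := by omega
        have hlt : b + (n + 1) * (n / 3 - j) < (n / 3 + 1) * (n + 1) := by
          have : (n + 1) * (n / 3 - j) ≤ (n + 1) * (n / 3) := Nat.mul_le_mul_left _ (by omega)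
          calc b + (n + 1) * (n / 3 - j) ≤ b + (n + 1) * (n / 3) := by omega
            _ < (n + 1) + (n + 1) * (n / 3) := by omega
            _ = _ := by ring
        have h := hQ ⟨b + (n + 1) * (n / 3 - j), hlt⟩
        rw [hφ] at h
        simp only at h
        rw [Nat.add_mul_div_left _ _ (by omega), Nat.div_eq_of_lt hb, zero_add,
          Nat.add_mul_mod_self_left, Nat.mod_eq_of_lt hb, Nat.sub_sub_self hj] at h
        exact h
    obtain ⟨M, N, h1, h2, h3⟩ := hrep Q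
    obtain ⟨e, _, hB⟩ := h1.2.1
    have hdiv := hFIJ k L G d c t m hd hS hirr hc hfr e n M N hB l1 (cl Q) h3 hfe
    change (Q : Polynomial (F2 k)) ∈ Submodule.map μ (E G d n (τ - d))
    by_cases hN : N = 0
    · have : (Q : Polynomial (F2 k)) = 0 := by
        rw [h2, hN]
        simp [sec]
      rw [this]
      exact Submodule.zero_mem _
    · have h4 : IsSec G d n (τ - d) (M + 1) N := by
        refine (hMUG k G d hd hS hirr n M 0 τ N hN).2.2 ⟨l1, ?_⟩ h1
        rw [← h3, pow_succ]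
        exact mul_dvd_mul_left _ hdiv
      refine ⟨sec G (M + 1) N, Submodule.subset_span ⟨M + 1, N, h4, rfl⟩, ?_⟩
      change Polynomial.C (gF G) * sec G (M + 1) N = _
      rw [h2]
      unfold sec
      rw [← mul_assoc, ← Polynomial.C_mul]
      congr 2
      rw [pow_succ, mul_inv]
      field_simp
  have hstep : ∀ v i, (∀ j, j < i → φ j v = 0) → φ i v ∈ F i := by
    intro Q i hQ
    rw [hφ, hF]
    split_ifs with hi
    · obtain ⟨M, N, h1, _, h3⟩ := hrep Q
      have hi2 : (i : ℕ) / (n + 1) < n / 3 + 1 := by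
        rw [Nat.div_lt_iff_lt_mul (by omega)]
        exact i.2
      have hidec := Nat.div_add_mod (i : ℕ) (n + 1)
      have hmod : (i : ℕ) % (n + 1) < n + 1 := Nat.mod_lt _ (by omega)
      refine cbd_mem hFCH hFDN hFRX hSAS G d hd hS hirr c hc t m hfr l1 n M τ N h1 (cl Q) h3 _ _
        ?_ ?_
      · intro j' hj'
        ext b'
        rw [Polynomial.coeff_zero]
        by_cases hjb : n < b' + 3 * j'
        · exact hwt Q j' b' hjb
        · have hb : b' < n + 1 := by omega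
          have hj : j' ≤ n / 3 := by omega
          have hlt1 : b' + (n + 1) * (n / 3 - j') < (i : ℕ) := by
            have h5 : n / 3 - j' + 1 ≤ (i : ℕ) / (n + 1) := by omega
            have h6 : (n + 1) * (n / 3 - j' + 1) ≤ (n + 1) * ((i : ℕ) / (n + 1)) :=
              Nat.mul_le_mul_left _ h5
            have h7 : (n + 1) * (n / 3 - j' + 1) = (n + 1) * (n / 3 - j') + (n + 1) := by ring
            omega
          have h := hQ ⟨b' + (n + 1) * (n / 3 - j'), hlt1.trans i.2⟩ hlt1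
          rw [hφ] at h
          simp only at h
          rw [Nat.add_mul_div_left _ _ (by omega), Nat.div_eq_of_lt hb, zero_add,
            Nat.add_mul_mod_self_left, Nat.mod_eq_of_lt hb, Nat.sub_sub_self hj] at h
          exact h
      · intro b' hb'
        have hlt1 : b' + (n + 1) * ((i : ℕ) / (n + 1)) < (i : ℕ) := by omega
        have h := hQ ⟨b' + (n + 1) * ((i : ℕ) / (n + 1)), hlt1.trans i.2⟩ hlt1
        rw [hφ] at h
        simp only at h
        rw [Nat.add_mul_div_left _ _ (by omega), Nat.div_eq_of_lt (hb'.trans hmod), zero_add,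
          Nat.add_mul_mod_self_left, Nat.mod_eq_of_lt (hb'.trans hmod)] at h
        exact h
    · rw [Submodule.mem_bot]
      exact hwt Q _ _ (by omega)
  have hmain := (hLED k (E G d n τ) L _ φ F W hFfin hWfin hker hstep).2
  refine hmain.trans (Nat.add_le_add hWle ?_)
  have hsum : ∑ i, Module.finrank k (F i) ≤ ∑ i : Fin ((n / 3 + 1) * (n + 1)),
      (if (i : ℕ) % (n + 1) + 3 * (n / 3 - (i : ℕ) / (n + 1)) ≤ n then
        (fun j b : ℕ => sdim d (τ + ((b : ℤ) + j) * (d - 3)))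
          (n / 3 - (i : ℕ) / (n + 1)) ((i : ℕ) % (n + 1)) else 0) := by
    refine Finset.sum_le_sum fun i _ => ?_
    by_cases h : (i : ℕ) % (n + 1) + 3 * (n / 3 - (i : ℕ) / (n + 1)) ≤ n
    · rw [hF i, if_pos h, if_pos h]
      exact (hSDM k L G d c hG hG0 hc _).2
    · rw [hF i, if_neg h, if_neg h, finrank_bot]
  refine hsum.trans (le_of_eq ?_)
  exact cbd_sum n (fun j b : ℕ => sdim d (τ + ((b : ℤ) + j) * (d - 3)))

end Pool.Agent.H59.SM
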