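import Pool.Agent.H84.SM.Targets

/-!
# MP_70ba79_ag, board `smc_modules`, module CLM: the section in a chart, as a linear map
-/

set_option autoImplicit false

namespace Pool.Agent.H59.SM

open MvPolynomial SC Pool.Agent.H27.LV Pool.Agent.H84.SM

theorem clm_psi_smul {k : Type} [Field k] (G : MvPolynomial (Fin 3) k) (d : ℕ) (l : Fin 3)
    (a : k) (N : R2 k) : Psi G d l (a • N) = a • Psi G d l N := by
  have h1 : a • N = Polynomial.C (MvPolynomial.C a : A2 k) * N := by
    rw [Polynomial.C_mul', ← MvPolynomial.algebraMap_eq, algebraMap_smul]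
  have h2 : a • Psi G d l N = Polynomial.C (MvPolynomial.C a : B2 k) * Psi G d l N := by
    rw [Polynomial.C_mul', ← MvPolynomial.algebraMap_eq, algebraMap_smul]
  rw [h1, h2, map_mul]
  congr 1
  simp [Psi]

theorem clm_rel {k : Type} [Field k] (G : MvPolynomial (Fin 3) k) (hg : gA G ≠ 0)
    (M M1 M2 : ℕ) (N N1 N2 : R2 k) (a : k)
    (h : sec G M N = sec G M1 N1 + a • sec G M2 N2) :
    gR G ^ (M1 + M2) * N = gR G ^ (M + M2) * N1 + a • (gR G ^ (M + M1) * N2) := by
  have hinj : Function.Injective (algebraMap (A2 k) (F2 k)) := IsFractionRing.injective _ _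
  have hgF : gF G ≠ 0 := by
    unfold gF
    intro h0
    exact hg (hinj (by rw [h0, map_zero]))
  apply Polynomial.map_injective _ hinj
  have e1 : a • (gR G ^ (M + M1) * N2) =
      Polynomial.C (MvPolynomial.C a : A2 k) * (gR G ^ (M + M1) * N2) := by
    rw [Polynomial.C_mul', ← MvPolynomial.algebraMap_eq, algebraMap_smul]
  have e2 : a • sec G M2 N2 =
      Polynomial.C (algebraMap (A2 k) (F2 k) (MvPolynomial.C a)) * sec G M2 N2 := by
    rw [Polynomial.C_mul', ← MvPolynomial.algebraMap_eq, algebraMap_smul, algebraMap_smul]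
  rw [e1]
  rw [e2] at h
  simp only [sec] at h
  have hC : ∀ n : ℕ, (Polynomial.C (gF G ^ n) : Polynomial (F2 k)) *
      Polynomial.C ((gF G ^ n)⁻¹) = 1 := by
    intro n
    rw [← Polynomial.C_mul, mul_inv_cancel₀ (pow_ne_zero _ hgF), Polynomial.C_1]
  have hR : (gR G).map (algebraMap (A2 k) (F2 k)) = Polynomial.C (gF G) := by
    simp [gR, gF]
  simp only [Polynomial.map_mul, Polynomial.map_add, Polynomial.map_pow, hR, Polynomial.map_C]
  have hm := congrArg (fun z => Polynomial.C (gF G ^ M) * Polynomial.C (gF G ^ M1) *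
    Polynomial.C (gF G ^ M2) * z) h
  have l1 : Polynomial.C (gF G ^ M) * Polynomial.C (gF G ^ M1) *
      Polynomial.C (gF G ^ M2) * (Polynomial.C (gF G ^ M)⁻¹ *
        Polynomial.map (algebraMap (A2 k) (F2 k)) N) =
      Polynomial.C (gF G) ^ (M1 + M2) * Polynomial.map (algebraMap (A2 k) (F2 k)) N := by
    calc _ = (Polynomial.C (gF G ^ M) * Polynomial.C (gF G ^ M)⁻¹) *
        (Polynomial.C (gF G ^ M1) * Polynomial.C (gF G ^ M2)) *
          Polynomial.map (algebraMap (A2 k) (F2 k)) N := by ring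
      _ = _ := by rw [hC, one_mul, ← Polynomial.C_mul, ← pow_add, ← Polynomial.C_pow]
  rw [l1] at hm
  rw [hm]
  have l2 : Polynomial.C (gF G ^ M) * Polynomial.C (gF G ^ M1) *
      Polynomial.C (gF G ^ M2) * (Polynomial.C (gF G ^ M1)⁻¹ *
        Polynomial.map (algebraMap (A2 k) (F2 k)) N1) =
      Polynomial.C (gF G) ^ (M + M2) * Polynomial.map (algebraMap (A2 k) (F2 k)) N1 := by
    calc _ = (Polynomial.C (gF G ^ M1) * Polynomial.C (gF G ^ M1)⁻¹) *
        (Polynomial.C (gF G ^ M) * Polynomial.C (gF G ^ M2)) *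
          Polynomial.map (algebraMap (A2 k) (F2 k)) N1 := by ring
      _ = _ := by rw [hC, one_mul, ← Polynomial.C_mul, ← pow_add, ← Polynomial.C_pow]
  have l3 : Polynomial.C (gF G ^ M) * Polynomial.C (gF G ^ M1) *
      Polynomial.C (gF G ^ M2) * (Polynomial.C (gF G ^ M2)⁻¹ *
        Polynomial.map (algebraMap (A2 k) (F2 k)) N2) =
      Polynomial.C (gF G) ^ (M + M1) * Polynomial.map (algebraMap (A2 k) (F2 k)) N2 := by
    calc _ = (Polynomial.C (gF G ^ M2) * Polynomial.C (gF G ^ M2)⁻¹) *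
        (Polynomial.C (gF G ^ M) * Polynomial.C (gF G ^ M1)) *
          Polynomial.map (algebraMap (A2 k) (F2 k)) N2 := by ring
      _ = _ := by rw [hC, one_mul, ← Polynomial.C_mul, ← pow_add, ← Polynomial.C_pow]
  rw [mul_add, l2, mul_left_comm _ (Polynomial.C (algebraMap (A2 k) (F2 k) (MvPolynomial.C a))), l3]

theorem pf_CLM (_hMUG : T_MUG) (hEME : T_EME) (hGPR : T_GPR) (hPSG : T_PSG) : T_CLM := by
  intro k _ _ _ G d hd hS hirr n τ l
  classical
  obtain ⟨hp1, _, hp3, _, _⟩ := hGPR k G d hd hS hirr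
  have hgp : gp G ≠ 0 := hp1.ne_zero
  have hgA : gA G ≠ 0 := hp3.ne_zero
  have hpsi : Psi G d l (gR G) = gp G := (hPSG k G d l).1
  have hex : ∀ Q : E G d n τ, ∃ (M : ℕ) (N : R2 k) (c : P2 k), IsSec G d n τ M N ∧
      (Q : Polynomial (F2 k)) = sec G M N ∧ Psi G d l N = gp G ^ M * c := by
    intro Q
    obtain ⟨M, N, h1, h2⟩ := (hEME k G d (by omega) hS.1 hirr.ne_zero n τ Q).1 Q.2
    obtain ⟨c, hc⟩ := h1.2.2 l
    exact ⟨M, N, c, h1, h2, hc⟩
  choose M N c hsec hQ hc using hex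
  -- the relation of three sections in the chart
  have key : ∀ (m m1 m2 : ℕ) (f f1 f2 : R2 k) (g g1 g2 : P2 k) (a : k),
      sec G m f = sec G m1 f1 + a • sec G m2 f2 → Psi G d l f = gp G ^ m * g →
      Psi G d l f1 = gp G ^ m1 * g1 → Psi G d l f2 = gp G ^ m2 * g2 → g = g1 + a • g2 := by
    intro m m1 m2 f f1 f2 g g1 g2 a hs h0 h1 h2
    have h := congrArg (Psi G d l) (clm_rel G hgA m m1 m2 f f1 f2 a hs)
    rw [map_mul, map_add, clm_psi_smul, map_mul, map_mul, map_pow, map_pow, map_pow, hpsi,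
      h0, h1, h2] at h
    have hne : gp G ^ (m + m1 + m2) ≠ 0 := pow_ne_zero _ hgp
    apply mul_left_cancel₀ hne
    rw [mul_add, mul_smul_comm]
    calc gp G ^ (m + m1 + m2) * g = gp G ^ (m1 + m2) * (gp G ^ m * g) := by ring
      _ = gp G ^ (m + m2) * (gp G ^ m1 * g1) + a • (gp G ^ (m + m1) * (gp G ^ m2 * g2)) := h
      _ = _ := by
        congr 1
        · ring
        · congr 1
          ring
  have hlin : ∀ (Q1 Q2 : E G d n τ) (a : k), c (Q1 + a • Q2) = c Q1 + a • c Q2 := by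
    intro Q1 Q2 a
    refine key _ _ _ _ _ _ _ _ _ a ?_ (hc (Q1 + a • Q2)) (hc Q1) (hc Q2)
    rw [← hQ, ← hQ, ← hQ]
    rfl
  have h0 : c 0 = 0 := by
    have h := hlin 0 0 1
    rw [one_smul, one_smul, add_zero] at h
    exact (add_left_cancel (a := c 0) (by rw [add_zero]; exact h)).symm
  refine ⟨{ toFun := c, map_add' := ?_, map_smul' := ?_ }, ?_⟩
  · intro Q1 Q2
    have h := hlin Q1 Q2 1
    rwa [one_smul, one_smul] at h
  · intro a Q2
    have h := hlin 0 Q2 a
    rwa [h0, zero_add, zero_add] at h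
  · intro Q m f hf hQf
    obtain ⟨g, hg⟩ := hf.2.2 l
    have h := key (M Q) m 0 (N Q) f 0 (c Q) g 0 0 (by rw [← hQ, hQf, zero_smul, add_zero])
      (hc Q) hg (by rw [map_zero, mul_zero])
    rw [zero_smul, add_zero] at h
    change gp G ^ m * c Q = _
    rw [h, hg]

end Pool.Agent.H59.SM
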