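import Pool.Agent.H19.TMB.BL
import Pool.Agent.H23.SM.Targets

/-! Board sm2_modules, module K1: the mean square over a box at a fixed position. -/

set_option autoImplicit false

open NumberField NumberField.InfinitePlace MeasureTheory

namespace Pool.Agent.H59.SM.K1

open Pool.Agent.H25.HK Pool.Agent.H23.LB Pool.Agent.H23.LC Pool.Agent.H27.TM
open Pool.Agent.H29.DW (dg Rl lf wv Pos rv)
open Pool.Agent.H31.SW (EE itg FF DD PP pF dK Pf GG)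
open Pool.Agent.H23.SM (Clo S_OC S_K1)

/-- powers of the logarithm -/
theorem lg (n : ℕ) (hn : 0 < n) (ε : ℝ) (hε : 0 < ε) : ∃ C : ℝ, 0 ≤ C ∧
    ∀ T δ : ℝ, 1 ≤ T → 0 ≤ δ →
      (1 + Real.log (1 + δ)) ^ n ≤ C * (T ^ ε * (1 + δ / T) ^ (1 / 2 : ℝ)) := by
  obtain ⟨s, hs⟩ : ∃ s : ℝ, s = min ε (1 / 2) := ⟨_, rfl⟩
  have hs0 : 0 < s := by rw [hs]; positivity
  have hs1 : s ≤ ε := by rw [hs]; exact min_le_left _ _
  have hs2 : s ≤ 1 / 2 := by rw [hs]; exact min_le_right _ _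
  obtain ⟨C, hC, h⟩ := Pool.Agent.H19.TMB.BL.log_pow n hn s hs0
  refine ⟨C, hC, fun T δ hT hδ => ?_⟩
  have hT0 : 0 < T := by linarith
  have hq : 0 ≤ δ / T := by positivity
  have h1 : (1 + Real.log (1 + δ)) ^ n ≤ (1 + Real.log (1 + (1 + δ))) ^ n := by
    have h2 : 0 ≤ Real.log (1 + δ) := Real.log_nonneg (by linarith)
    have h3 : Real.log (1 + δ) ≤ Real.log (1 + (1 + δ)) :=
      Real.log_le_log (by linarith) (by linarith)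
    exact pow_le_pow_left₀ (by linarith) (by linarith) n
  have h4 : 1 + δ ≤ T * (1 + δ / T) := by
    have : T * (1 + δ / T) = T + δ := by field_simp
    rw [this]
    linarith
  calc (1 + Real.log (1 + δ)) ^ n ≤ (1 + Real.log (1 + (1 + δ))) ^ n := h1
    _ ≤ C * (1 + δ) ^ s := h _ (by linarith)
    _ ≤ C * (T * (1 + δ / T)) ^ s := by
        gcongr
    _ = C * (T ^ s * (1 + δ / T) ^ s) := by
        rw [Real.mul_rpow hT0.le (by positivity)]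
    _ ≤ C * (T ^ ε * (1 + δ / T) ^ (1 / 2 : ℝ)) := by
        have e1 : T ^ s ≤ T ^ ε := Real.rpow_le_rpow_of_exponent_le hT hs1
        have e2 : (1 + δ / T) ^ s ≤ (1 + δ / T) ^ (1 / 2 : ℝ) :=
          Real.rpow_le_rpow_of_exponent_le (by linarith) hs2
        gcongr

/-- the collection of the terms -/
theorem coll {Cb Cl Cd δ d T ε A M : ℝ} (hCb : 0 ≤ Cb) (hCl : 0 ≤ Cl) (hCd : 0 ≤ Cd)
    (hδ : 0 ≤ δ) (hd : 1 ≤ d) (hT : 1 ≤ T) (hε : 0 < ε)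
    (hA : A ≤ Cb * (Cl * (T ^ (ε / 2) * (1 + δ / T) ^ (1 / 2 : ℝ))))
    (h : M ≤ Cb * (1 + δ) + A * (Cd * (δ * (d ^ 2 * T ^ (ε / 2) * (1 + δ / T))))) :
    M ≤ (Cb + Cb * Cl * Cd) * (d ^ 2 * T ^ ε * ((1 + δ) * (1 + δ / T) ^ (3 / 2 : ℝ))) := by
  have hT0 : 0 < T := by linarith
  have hq : 0 ≤ δ / T := by positivity
  obtain ⟨z, hz⟩ : ∃ z : ℝ, z = 1 + δ / T := ⟨_, rfl⟩
  have hz1 : 1 ≤ z := by rw [hz]; linarith
  have hz0 : 0 < z := by linarith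
  rw [← hz] at hA h ⊢
  have e1 : z ^ (1 / 2 : ℝ) * z = z ^ (3 / 2 : ℝ) := by
    nth_rewrite 2 [← Real.rpow_one z]
    rw [← Real.rpow_add hz0]
    norm_num
  have e2 : T ^ (ε / 2) * T ^ (ε / 2) = T ^ ε := by
    rw [← Real.rpow_add hT0]
    congr 1
    ring
  have hd2 : 1 ≤ d ^ 2 := one_le_pow₀ hd
  have hTe : 1 ≤ T ^ ε := Real.one_le_rpow hT hε.le
  have hz3 : 1 ≤ z ^ (3 / 2 : ℝ) := Real.one_le_rpow hz1 (by norm_num)
  have hbig : 1 ≤ d ^ 2 * T ^ ε * z ^ (3 / 2 : ℝ) :=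
    one_le_mul_of_one_le_of_one_le (one_le_mul_of_one_le_of_one_le hd2 hTe) hz3
  have k1 : Cb * (1 + δ) ≤ Cb * (d ^ 2 * T ^ ε * ((1 + δ) * z ^ (3 / 2 : ℝ))) := by
    calc Cb * (1 + δ) = Cb * (1 + δ) * 1 := by ring
      _ ≤ Cb * (1 + δ) * (d ^ 2 * T ^ ε * z ^ (3 / 2 : ℝ)) := by gcongr
      _ = _ := by ring
  have k2 : A * (Cd * (δ * (d ^ 2 * T ^ (ε / 2) * z))) ≤
      Cb * Cl * Cd * (d ^ 2 * T ^ ε * ((1 + δ) * z ^ (3 / 2 : ℝ))) := by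
    calc A * (Cd * (δ * (d ^ 2 * T ^ (ε / 2) * z))) ≤
        (Cb * (Cl * (T ^ (ε / 2) * z ^ (1 / 2 : ℝ)))) *
          (Cd * ((1 + δ) * (d ^ 2 * T ^ (ε / 2) * z))) := by
          gcongr
          linarith
      _ = Cb * Cl * Cd * (d ^ 2 * (T ^ (ε / 2) * T ^ (ε / 2)) *
          ((1 + δ) * (z ^ (1 / 2 : ℝ) * z))) := by ring
      _ = _ := by rw [e1, e2]
  linarith

/-- (K1) the mean square over a box with the radii `τ_v ^ (1/3)` at a fixed position. -/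
theorem pf_K1 (hRK : M_RK) (hMJ : M_MJ) (hMQ : M_MQ) (hDY : M_DY) (hOC : S_OC) : S_K1 := by
  classical
  intro n ε p hn hε hp
  obtain ⟨q, hq, hpq⟩ := hRK p hp
  obtain ⟨Φ, Ψ, C₀, hC₀, hΦ⟩ := hMJ
  obtain ⟨Ca, hCa, hMQ⟩ := hMQ n p q Φ Ψ C₀ hn hp hq hpq hC₀ hΦ
  obtain ⟨Cb, hCb, hDY⟩ := hDY n q Ψ hn hq hΦ.psi
  obtain ⟨Cl, hCl, hlog⟩ := lg n hn (ε / 2) (by positivity)
  obtain ⟨Cd, hCd, hOC⟩ := hOC n (ε / 2) q Ψ hn (by positivity) hq hΦ.psi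
  refine ⟨Ca * (Cb + Cb * Cl * Cd), by positivity, ?_⟩
  intro K _ _ hK L y ω r G τ ι J c D hL hω hG hcls hclo hspc hD
  have hδ0 : 0 ≤ DD L y := by
    unfold DD
    have : (0 : ℝ) ≤ (FractionalIdeal.absNorm L : ℝ) := by
      exact_mod_cast FractionalIdeal.absNorm_nonneg L
    positivity
  have hd1 : 1 ≤ dK K := by
    unfold dK
    have h : (1 : ℤ) ≤ |discr K| := Int.one_le_abs (discr_ne_zero K)
    have h2 : ((1 : ℤ) : ℝ) ≤ ((|discr K| : ℤ) : ℝ) := by exact_mod_cast h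
    simpa using h2
  have hG1 : ∀ v, 1 ≤ G v := fun v => (hG v).1
  have hP1 : 1 ≤ PP G := Pool.Agent.H19.TMB.BL.one_le_PP hG1
  have hτ1 : ∀ v, 1 ≤ τ v := fun v => (one_le_pow₀ (hG1 v)).trans (hG v).2.le
  have hT1 : 1 ≤ PP τ := Pool.Agent.H19.TMB.BL.one_le_PP hτ1
  have hT0 : 0 < PP τ := by linarith
  have hD0 : 0 ≤ D := by linarith
  rcases J.eq_empty_or_nonempty with hJ | ⟨j₀, hj₀⟩
  · rw [hJ, Finset.sum_empty]
    positivity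
  obtain ⟨A, hA1, hA2, hA3⟩ := hDY K hK L y ω r G hL hω hG1
  have h1 : ∑ j ∈ J, ‖SS p L y ω r (c j)‖ ^ 2 ≤
      Ca * (D * PP G * ‖MM q Ψ L y ω r G (c j₀)‖) :=
    hMQ K hK L y ω r ι J c (c j₀) G D hL hω hG1 (fun v => (hcls j₀ hj₀).real v)
      (fun j hj v => ⟨(hcls j hj).real v, hclo j hj j₀ hj₀ v⟩) hspc
  have h2 : ∑ α ∈ A, ‖OD q Ψ L y ω r G α (c j₀)‖ ≤ (A.card : ℝ) *
      (Cd * (DD L y * (dK K ^ 2 * PP τ ^ (ε / 2) * (1 + DD L y / PP τ)))) := by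
    calc ∑ α ∈ A, ‖OD q Ψ L y ω r G α (c j₀)‖ ≤ ∑ _α ∈ A,
        Cd * (DD L y * (dK K ^ 2 * PP τ ^ (ε / 2) * (1 + DD L y / PP τ))) := by
          refine Finset.sum_le_sum fun α hα => ?_
          exact hOC K hK L y ω r G α τ (c j₀) hL hω
            (fun v => ⟨hG1 v, (hA2 α hα v).1, (hA2 α hα v).2.1, (hA2 α hα v).2.2, (hG v).2⟩)
            (hcls j₀ hj₀)
      _ = _ := by rw [Finset.sum_const, nsmul_eq_mul]
  have h3 : ‖MM q Ψ L y ω r G (c j₀)‖ ≤ Cb * (1 + DD L y) + (A.card : ℝ) *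
      (Cd * (DD L y * (dK K ^ 2 * PP τ ^ (ε / 2) * (1 + DD L y / PP τ)))) :=
    (hA3 (c j₀)).trans (by gcongr)
  have h4 := coll hCb hCl hCd hδ0 hd1 hT1 hε
    (hA1.trans (mul_le_mul_of_nonneg_left (hlog (PP τ) (DD L y) hT1 hδ0) hCb)) h3
  refine h1.trans ?_
  calc Ca * (D * PP G * ‖MM q Ψ L y ω r G (c j₀)‖) ≤
      Ca * (D * PP G * ((Cb + Cb * Cl * Cd) * (dK K ^ 2 * PP τ ^ ε *
        ((1 + DD L y) * (1 + DD L y / PP τ) ^ (3 / 2 : ℝ))))) := by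
        gcongr
    _ = _ := by ring

end Pool.Agent.H59.SM.K1
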