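import Pool.Agent.H84.SM.Targets

/-!
# MP_70ba79_ag, board `smc_modules`, module FAC: factorisation of invariant homogeneous elements
-/

set_option autoImplicit false

namespace Pool.Agent.H59.SM

open MvPolynomial SC Pool.Agent.H27.LV Pool.Agent.H84.SM

theorem pf_FAC (hINV : T_INV) (hHOM : T_HOM) : T_FAC := by
  intro k _ _ e n N hN hI hB
  classical
  refine ⟨UniqueFactorizationMonoid.factors N, UniqueFactorizationMonoid.factors_prod hN, ?_⟩
  intro P hP
  have hirr : Irreducible P := UniqueFactorizationMonoid.irreducible_of_factor P hP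
  have hdvd : P ∣ N := UniqueFactorizationMonoid.dvd_of_mem_factors hP
  obtain ⟨N1, hN1⟩ := hdvd
  have hne : P * N1 ≠ 0 := by rw [← hN1]; exact hN
  refine ⟨hirr, (hINV k).2 P N1 hne (by rw [← hN1]; exact hI), ?_⟩
  obtain ⟨e1, n1, e2, n2, _, _, h1, _⟩ := hHOM k e n P N1 hne (by rw [← hN1]; exact hB)
  exact ⟨e1, n1, h1⟩

end Pool.Agent.H59.SM
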